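import Pool.Agent.X152.PK.Prob
set_option autoImplicit false

/-!
Candidates: vertices joined to all of `S` and not joined to `r1`, `r2`.
-/

namespace Pool.Agent.X152.PK

open Finset

variable {V : Type} [Fintype V] [DecidableEq V] {M : ℕ} [NeZero M]

/-- `w` is joined to all of `S` and not to `r1`, `r2` -/
def Cand (S : Finset V) (r1 r2 w : V) (ω : Sym2 V → Fin M) : Prop :=
  (∀ x ∈ S, ω s(x, w) = 0) ∧ ω s(r1, w) ≠ 0 ∧ ω s(r2, w) ≠ 0

theorem pr_cand (hM : 4 ≤ M) (S : Finset V) (r1 r2 w : V) (hwS : w ∉ S) (h1 : r1 ∉ S)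
    (h2 : r2 ∉ S) :
    ((M : ℝ)⁻¹) ^ S.card / 2 ≤ pr (fun ω : Sym2 V → Fin M => Cand S r1 r2 w ω) := by
  classical
  have hMpos : (0 : ℝ) < M := by exact_mod_cast (by omega : 0 < M)
  have hne : Nonempty (Fin M) := ⟨0⟩
  set C : Finset (Sym2 V) := S.image (fun x => s(x, w)) with hC
  have hcard : C.card = S.card := by
    refine Finset.card_image_of_injective _ ?_
    intro x y hxy
    exact Sym2.congr_left.1 hxy
  have hnot : ∀ r, r ∉ S → s(r, w) ∉ C := by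
    intro r hr hc
    obtain ⟨x, hx, hxw⟩ := mem_image.1 hc
    have : x = r := Sym2.congr_left.1 hxw
    exact hr (this ▸ hx)
  have hind := pr_indep C (fun ω : Sym2 V → Fin M => ∀ x ∈ S, ω s(x, w) = 0)
    (fun ω => ω s(r1, w) ≠ 0 ∧ ω s(r2, w) ≠ 0)
    (fun ω ω' h hω x hx => by rw [← h _ (mem_image_of_mem _ hx)]; exact hω x hx)
    (fun ω ω' h hω => by
      rw [← h _ (hnot r1 h1), ← h _ (hnot r2 h2)]; exact hω)
  have hstar : pr (fun ω : Sym2 V → Fin M => ∀ x ∈ S, ω s(x, w) = 0) =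
      ((M : ℝ)⁻¹) ^ S.card := by
    have := pr_present (0 : Fin M) C
    rw [hcard, Fintype.card_fin] at this
    rw [← this]
    congr 1
    funext ω
    refine propext ⟨fun h e he => ?_, fun h x hx => h _ (mem_image_of_mem _ hx)⟩
    obtain ⟨x, hx, rfl⟩ := mem_image.1 he
    exact h x hx
  have hone : ∀ e : Sym2 V, pr (fun ω : Sym2 V → Fin M => ω e = 0) = (M : ℝ)⁻¹ := by
    intro e
    have := pr_present (0 : Fin M) {e}
    rw [card_singleton, pow_one, Fintype.card_fin] at this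
    rw [← this]
    congr 1
    funext ω
    simp
  have hnz : 1 / 2 ≤ pr (fun ω : Sym2 V → Fin M => ω s(r1, w) ≠ 0 ∧ ω s(r2, w) ≠ 0) := by
    have h3 := pr_not (fun ω : Sym2 V → Fin M => ω s(r1, w) = 0 ∨ ω s(r2, w) = 0)
    have h4 := pr_or (fun ω : Sym2 V → Fin M => ω s(r1, w) = 0) (fun ω => ω s(r2, w) = 0)
    rw [hone, hone] at h4
    have h5 : pr (fun ω : Sym2 V → Fin M => ω s(r1, w) ≠ 0 ∧ ω s(r2, w) ≠ 0) =
        pr (fun ω : Sym2 V → Fin M => ¬ (ω s(r1, w) = 0 ∨ ω s(r2, w) = 0)) := by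
      congr 1
      funext ω
      exact propext (not_or.symm)
    rw [h5, h3]
    have h6 : (M : ℝ)⁻¹ ≤ 1 / 4 := by
      rw [inv_eq_one_div]
      exact one_div_le_one_div_of_le (by norm_num) (by exact_mod_cast hM)
    linarith
  have hgoal : pr (fun ω : Sym2 V → Fin M => Cand S r1 r2 w ω) =
      ((M : ℝ)⁻¹) ^ S.card * pr (fun ω : Sym2 V → Fin M => ω s(r1, w) ≠ 0 ∧ ω s(r2, w) ≠ 0) := by
    rw [← hstar, ← hind]
    rfl
  rw [hgoal]
  have : (0 : ℝ) ≤ ((M : ℝ)⁻¹) ^ S.card := by positivity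
  nlinarith

theorem block (hM : 4 ≤ M) (S : Finset V) (r1 r2 : V) (h1 : r1 ∉ S) (h2 : r2 ∉ S)
    (B : Finset V) (hB : ∀ w ∈ B, w ∉ S ∧ w ≠ r1 ∧ w ≠ r2) :
    pr (fun ω : Sym2 V → Fin M => ∀ w ∈ B, ¬ Cand S r1 r2 w ω) ≤
      (1 - ((M : ℝ)⁻¹) ^ S.card / 2) ^ B.card := by
  classical
  have hMpos : (0 : ℝ) < M := by exact_mod_cast (by omega : 0 < M)
  have hne : Nonempty (Fin M) := ⟨0⟩
  induction B using Finset.induction_on with
  | empty =>
    have hp : pr (fun ω : Sym2 V → Fin M => ∀ w ∈ (∅ : Finset V), ¬ Cand S r1 r2 w ω) ≤ 1 := by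
      have := pr_not (fun ω : Sym2 V → Fin M => ∀ w ∈ (∅ : Finset V), ¬ Cand S r1 r2 w ω)
      have h0 := pr_nonneg (fun ω : Sym2 V → Fin M =>
        ¬ ∀ w ∈ (∅ : Finset V), ¬ Cand S r1 r2 w ω)
      linarith
    simpa using hp
  | insert w B hwB ih =>
    have ih' := ih (fun w hw => hB w (mem_insert_of_mem hw))
    obtain ⟨hwS, hw1, hw2⟩ := hB w (mem_insert_self _ _)
    set T : Finset V := insert r1 (insert r2 S) with hT
    set C : Finset (Sym2 V) := T.image (fun x => s(x, w)) with hC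
    have hmem : ∀ x ∈ T, s(x, w) ∈ C := fun x hx => mem_image_of_mem _ hx
    have hnot : ∀ w' ∈ B, ∀ x ∈ T, s(x, w') ∉ C := by
      intro w' hw' x hx hc
      obtain ⟨y, hy, hyx⟩ := mem_image.1 hc
      obtain ⟨g1, g2, g3⟩ := hB w' (mem_insert_of_mem hw')
      rcases Sym2.eq_iff.1 hyx with ⟨-, h⟩ | ⟨h, h'⟩
      · exact hwB (h ▸ hw')
      · rw [h] at hy
        simp only [hT, mem_insert] at hy
        rcases hy with hy | hy | hy
        · exact g2 hy
        · exact g3 hy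
        · exact g1 hy
    have hr1 : r1 ∈ T := by simp [hT]
    have hr2 : r2 ∈ T := by simp [hT]
    have hST : ∀ x ∈ S, x ∈ T := fun x hx => by simp [hT, hx]
    have hcongr : ∀ (w' : V) (ω ω' : Sym2 V → Fin M), (∀ x ∈ T, ω s(x, w') = ω' s(x, w')) →
        ¬ Cand S r1 r2 w' ω → ¬ Cand S r1 r2 w' ω' := by
      rintro w' ω ω' h hn ⟨a, b, c⟩
      exact hn ⟨fun x hx => by rw [h x (hST x hx)]; exact a x hx, by rw [h _ hr1]; exact b,
        by rw [h _ hr2]; exact c⟩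
    have hind := pr_indep C (fun ω : Sym2 V → Fin M => ¬ Cand S r1 r2 w ω)
      (fun ω => ∀ w ∈ B, ¬ Cand S r1 r2 w ω)
      (fun ω ω' h hω => hcongr w ω ω' (fun x hx => h _ (hmem x hx)) hω)
      (fun ω ω' h hω w' hw' => hcongr w' ω ω' (fun x hx => h _ (hnot w' hw' x hx)) (hω w' hw'))
    have heq : pr (fun ω : Sym2 V → Fin M => ∀ w' ∈ insert w B, ¬ Cand S r1 r2 w' ω) =
        pr (fun ω : Sym2 V → Fin M => ¬ Cand S r1 r2 w ω ∧ ∀ w ∈ B, ¬ Cand S r1 r2 w ω) := by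
      congr 1
      funext ω
      simp
    rw [heq, hind, pr_not, card_insert_of_notMem hwB, pow_succ, mul_comm]
    have hc := pr_cand hM S r1 r2 w hwS h1 h2
    refine mul_le_mul ih' (by linarith) ?_ ?_
    · have := pr_not (fun ω : Sym2 V → Fin M => Cand S r1 r2 w ω)
      have h0 := pr_nonneg (fun ω : Sym2 V → Fin M => ¬ Cand S r1 r2 w ω)
      linarith
    · refine pow_nonneg ?_ _
      have : ((M : ℝ)⁻¹) ^ S.card ≤ 1 := by
        refine pow_le_one₀ (by positivity) ?_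
        rw [inv_le_one_iff₀]
        right
        exact_mod_cast (by omega : 1 ≤ M)
      linarith

end Pool.Agent.X152.PK
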