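import Pool.Agent.X152.PK.Path
set_option autoImplicit false

/-!
Copies of the complement of a path on `2 m` vertices together with a star: the number of new edges.
-/

namespace Pool.Agent.X152.PK

open Finset

variable {V : Type} [DecidableEq V] [Fintype V] {m : ℕ}

/-- the edges of the copy `φ` of the complement of the path, and of the star from `φ il` to `S` -/
def W (il : Fin (2 * m)) (φ : Fin (2 * m) → V) (S : Finset V) : Finset (Sym2 V) :=
  (FE (2 * m)).image (Sym2.map φ) ∪ S.image (fun x => s(x, φ il))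

omit [Fintype V] in
theorem newedges (hm : 3 ≤ m) (i0 il : Fin (2 * m)) (h0 : i0.val = 0) (hl : il.val = 2 * m - 1)
    (φ : Fin (2 * m) → V) (hφ : Function.Injective φ) (S X : Finset V) (hS : S.card = m - 1)
    (hSX : S ⊆ X) (h0S : φ i0 ∈ S) (hlX : φ il ∉ X) (E : Finset (Sym2 V))
    (hE : ∀ e ∈ E, ∀ x ∈ e, x ∈ X) :
    (m - 1) * (univ.filter (fun i => φ i ∉ X)).card + 1 ≤ (W il φ S \ E).card := by
  classical
  set R : Finset (Fin (2 * m)) := univ.filter (fun i => φ i ∉ X) with hR
  have hRl : il ∈ R := by simp [hR, hlX]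
  have hR0 : i0 ∉ R := by simp [hR, hSX h0S]
  have hR1 : 1 ≤ R.card := Finset.card_pos.2 ⟨il, hRl⟩
  have hR2 : R.card ≤ 2 * m - 1 := by
    have : R ⊆ univ.erase i0 := fun i hi => mem_erase.2 ⟨fun h => hR0 (h ▸ hi), mem_univ _⟩
    have := Finset.card_le_card this
    rw [card_erase_of_mem (mem_univ _), card_univ, Fintype.card_fin] at this
    exact this
  have hinj : Function.Injective (Sym2.map φ) := Sym2.map.injective hφ
  have hsub : (FR R).image (Sym2.map φ) ⊆ W il φ S \ E := by
    intro e he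
    obtain ⟨f, hf, rfl⟩ := mem_image.1 he
    obtain ⟨hf1, i, hi, hif⟩ := mem_filter.1 hf
    refine mem_sdiff.2 ⟨mem_union_left _ (mem_image_of_mem _ hf1), fun hfE => ?_⟩
    have : φ i ∈ Sym2.map φ f := Sym2.mem_map.2 ⟨i, hif, rfl⟩
    exact (mem_filter.1 hi).2 (hE _ hfE _ this)
  have hcard : ((FR R).image (Sym2.map φ)).card = (FR R).card := card_image_of_injective _ hinj
  rcases Nat.lt_or_ge R.card (2 * m - 1) with h | h
  · have h1 := card_FR hm R hR1 (by omega)
    have h2 := Finset.card_le_card hsub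
    omega
  · have hRc : R.card = 2 * m - 1 := le_antisymm hR2 h
    have h1 := card_FR' hm R hRc
    obtain ⟨x, hxS, hx0⟩ : ∃ x ∈ S, x ≠ φ i0 := by
      have : 1 < S.card := by omega
      exact Finset.exists_mem_ne this _
    have hx : s(x, φ il) ∈ W il φ S \ E := by
      refine mem_sdiff.2 ⟨mem_union_right _ (mem_image.2 ⟨x, hxS, rfl⟩), fun hxE => ?_⟩
      exact hlX (hE _ hxE _ (Sym2.mem_mk_right _ _))
    have hx' : s(x, φ il) ∉ (FR R).image (Sym2.map φ) := by
      intro hc
      obtain ⟨f, hf, hfe⟩ := mem_image.1 hc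
      have : x ∈ Sym2.map φ f := by rw [hfe]; exact Sym2.mem_mk_left _ _
      obtain ⟨i, -, hi⟩ := Sym2.mem_map.1 this
      have hiR : i ∉ R := by
        simp only [hR, mem_filter, mem_univ, true_and, not_not]
        rw [hi]; exact hSX hxS
      have hRe : R = univ.erase i0 := by
        refine Finset.eq_of_subset_of_card_le
          (fun i hi => mem_erase.2 ⟨fun h => hR0 (h ▸ hi), mem_univ _⟩) ?_
        rw [card_erase_of_mem (mem_univ _), card_univ, Fintype.card_fin, hRc]
      have : i = i0 := by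
        by_contra hne
        exact hiR (by rw [hRe]; exact mem_erase.2 ⟨hne, mem_univ _⟩)
      exact hx0 (by rw [← hi, this])
    have h2 : (insert (s(x, φ il)) ((FR R).image (Sym2.map φ))).card ≤ (W il φ S \ E).card :=
      Finset.card_le_card (insert_subset hx hsub)
    rw [card_insert_of_notMem hx', hcard] at h2
    omega

/-- the weighted number of copies -/
theorem weight (hm : 3 ≤ m) (i0 il : Fin (2 * m)) (h0 : i0.val = 0) (hl : il.val = 2 * m - 1)
    (S X : Finset V) (hS : S.card = m - 1) (hSX : S ⊆ X) (E : Finset (Sym2 V))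
    (hE : ∀ e ∈ E, ∀ x ∈ e, x ∈ X) (p : ℝ) (hp0 : 0 ≤ p) (hp1 : p ≤ 1)
    (Φ : Finset (Fin (2 * m) → V))
    (hΦ : ∀ φ ∈ Φ, Function.Injective φ ∧ φ i0 ∈ S ∧ φ il ∉ X) :
    ∑ φ ∈ Φ, p ^ (W il φ S \ E).card ≤
      p * ((X.card : ℝ) + Fintype.card V * p ^ (m - 1)) ^ (2 * m) := by
  classical
  have h1 : ∀ φ ∈ Φ, p ^ (W il φ S \ E).card ≤
      p * ∏ i : Fin (2 * m), (if φ i ∈ X then (1 : ℝ) else p ^ (m - 1)) := by
    intro φ hφ
    obtain ⟨a, b, c⟩ := hΦ φ hφ
    have hne := newedges hm i0 il h0 hl φ a S X hS hSX b c E hE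
    have h2 : p ^ (W il φ S \ E).card ≤
        p ^ ((m - 1) * (univ.filter (fun i => φ i ∉ X)).card + 1) :=
      pow_le_pow_of_le_one hp0 hp1 hne
    refine h2.trans (le_of_eq ?_)
    rw [Finset.prod_ite, prod_const_one, one_mul, prod_const, pow_succ, pow_mul, mul_comm]
  have h3 : ∀ φ : Fin (2 * m) → V, 0 ≤
      p * ∏ i : Fin (2 * m), (if φ i ∈ X then (1 : ℝ) else p ^ (m - 1)) := by
    intro φ
    refine mul_nonneg hp0 (Finset.prod_nonneg fun i _ => ?_)
    split_ifs
    · exact zero_le_one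
    · positivity
  calc ∑ φ ∈ Φ, p ^ (W il φ S \ E).card
      ≤ ∑ φ ∈ Φ, p * ∏ i : Fin (2 * m), (if φ i ∈ X then (1 : ℝ) else p ^ (m - 1)) :=
        Finset.sum_le_sum h1
    _ ≤ ∑ φ : Fin (2 * m) → V, p * ∏ i : Fin (2 * m), (if φ i ∈ X then (1 : ℝ) else p ^ (m - 1)) :=
        Finset.sum_le_sum_of_subset_of_nonneg (subset_univ _) fun φ _ _ => h3 φ
    _ = p * (∑ x : V, (if x ∈ X then (1 : ℝ) else p ^ (m - 1))) ^ (2 * m) := by
        rw [← Finset.mul_sum, Fintype.sum_pow]
    _ ≤ p * ((X.card : ℝ) + Fintype.card V * p ^ (m - 1)) ^ (2 * m) := by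
        refine mul_le_mul_of_nonneg_left (pow_le_pow_left₀ ?_ ?_ _) hp0
        · refine Finset.sum_nonneg fun i _ => ?_
          split_ifs
          · exact zero_le_one
          · positivity
        · rw [Finset.sum_ite]
          have e1 : ∑ x ∈ univ.filter (fun x => x ∈ X), (1 : ℝ) = X.card := by simp
          have e2 : ∑ x ∈ univ.filter (fun x => x ∉ X), p ^ (m - 1) ≤
              Fintype.card V * p ^ (m - 1) := by
            rw [sum_const, nsmul_eq_mul]
            refine mul_le_mul_of_nonneg_right ?_ (by positivity)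
            exact_mod_cast Finset.card_le_univ _
          linarith

end Pool.Agent.X152.PK
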