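import Pool.Agent.X152.PK.Fail
set_option autoImplicit false

/-!
Some colouring fails for no `S`, `r1`, `r2`.
-/

namespace Pool.Agent.X152.PK

open Finset

variable {m : ℕ}

theorem params (m : ℕ) (hm : 3 ≤ m) : ∃ L n M K : ℕ, 4 ≤ M ∧ 2 * m ≤ L ∧ 1 ≤ n ∧ 2 * m * K ≤ L ∧
    ((L * n : ℕ) : ℝ) ^ (m + 1) * (L * (1 - ((M : ℝ)⁻¹) ^ (m - 1) / 2) ^ (n - (m + 1)) +
        ((M : ℝ)⁻¹ * (((m + 1 + 2 * m * K : ℕ) : ℝ) +
          ((L * n : ℕ) : ℝ) * ((M : ℝ)⁻¹) ^ (m - 1)) ^ (2 * m)) ^ K) < 1 := by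
  set D : ℕ := 1 + 4 * m * (m - 1) with hD
  set K : ℕ := D * (m + 1) + 1 with hK
  set L : ℕ := 2 * m * K with hL
  set Xm : ℕ := m + 1 + 2 * m * K with hXm
  set C0 : ℝ := ((Xm : ℝ) + L) ^ (2 * m) with hC0
  have hK1 : 1 ≤ K := by omega
  have hLm : 2 * m ≤ L := by rw [hL]; nlinarith
  have hLpos : (0 : ℝ) < L := by
    have : 0 < L := by omega
    exact_mod_cast this
  have hC0pos : 0 < C0 := by
    have : (0 : ℝ) < (Xm : ℝ) + L := by positivity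
    positivity
  have ht := Real.tendsto_pow_mul_exp_neg_atTop_nhds_zero (D * (m + 1))
  have hε : (0 : ℝ) < 1 / (2 * (L : ℝ) ^ (m + 2) * 4 ^ (D * (m + 1))) := by positivity
  obtain ⟨X0, hX0⟩ := Filter.eventually_atTop.1 (ht.eventually (gt_mem_nhds hε))
  obtain ⟨b, hb⟩ := exists_nat_gt (max (4 * X0) (max (2 * (m + 1) + 4 : ℝ)
    (2 * (L : ℝ) ^ (m + 1) * C0 ^ K)))
  have hb1 : 4 * X0 < b := (le_max_left _ _).trans_lt hb
  have hb2 : (2 * (m + 1) + 4 : ℝ) < b := ((le_max_left _ _).trans (le_max_right _ _)).trans_lt hb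
  have hb3 : 2 * (L : ℝ) ^ (m + 1) * C0 ^ K < b :=
    ((le_max_right _ _).trans (le_max_right _ _)).trans_lt hb
  have hbn : 2 * (m + 1) + 4 < b := by exact_mod_cast hb2
  have hbpos : (0 : ℝ) < b := by exact_mod_cast (by omega : 0 < b)
  have hb1' : 1 ≤ b := by omega
  set M : ℕ := b ^ (4 * m) with hM
  set n : ℕ := b ^ D with hn
  have hbM : b ≤ M := by
    rw [hM]
    exact Nat.le_self_pow (by omega) b
  have hbn' : b ≤ n := by
    rw [hn]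
    exact Nat.le_self_pow (by omega) b
  refine ⟨L, n, M, K, by omega, hLm, by omega, le_rfl, ?_⟩
  have hp : (M : ℝ)⁻¹ = ((b : ℝ)⁻¹) ^ (4 * m) := by
    rw [hM]
    push_cast
    rw [inv_pow]
  have hpt : ((M : ℝ)⁻¹) ^ (m - 1) = ((b : ℝ)⁻¹) ^ (4 * m * (m - 1)) := by
    rw [hp, ← pow_mul]
  have hnR : (n : ℝ) = b * (b : ℝ) ^ (4 * m * (m - 1)) := by
    rw [hn, hD]
    push_cast
    rw [pow_add, pow_one]
  have hnp : (n : ℝ) * ((M : ℝ)⁻¹) ^ (m - 1) = b := by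
    rw [hpt, hnR, mul_assoc, ← mul_pow, mul_inv_cancel₀ hbpos.ne', one_pow, mul_one]
  have hp0 : 0 < ((M : ℝ)⁻¹) ^ (m - 1) := by
    rw [hpt]; positivity
  have hV : ((L * n : ℕ) : ℝ) ^ (m + 1) = (L : ℝ) ^ (m + 1) * (b : ℝ) ^ (D * (m + 1)) := by
    push_cast
    rw [mul_pow, hn]
    push_cast
    rw [← pow_mul]
  -- first term
  have h1 : ((L * n : ℕ) : ℝ) ^ (m + 1) *
      (L * (1 - ((M : ℝ)⁻¹) ^ (m - 1) / 2) ^ (n - (m + 1))) < 1 / 2 := by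
    have hx : (1 - ((M : ℝ)⁻¹) ^ (m - 1) / 2) ≤ Real.exp (-(((M : ℝ)⁻¹) ^ (m - 1) / 2)) := by
      have := Real.add_one_le_exp (-(((M : ℝ)⁻¹) ^ (m - 1) / 2))
      linarith
    have hx0 : 0 ≤ (1 - ((M : ℝ)⁻¹) ^ (m - 1) / 2) := by
      have hle : ((M : ℝ)⁻¹) ^ (m - 1) ≤ 1 := by
        refine pow_le_one₀ (by positivity) ?_
        rw [inv_le_one_iff₀]
        right
        exact_mod_cast (by omega : 1 ≤ M)
      linarith
    have h2 : (1 - ((M : ℝ)⁻¹) ^ (m - 1) / 2) ^ (n - (m + 1)) ≤ Real.exp (-((b : ℝ) / 4)) := by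
      refine (pow_le_pow_left₀ hx0 hx _).trans ?_
      rw [← Real.exp_nat_mul]
      refine Real.exp_le_exp.2 ?_
      have h3 : (n : ℝ) / 2 ≤ ((n - (m + 1) : ℕ) : ℝ) := by
        have h4 : m + 1 ≤ n := by omega
        rw [Nat.cast_sub h4]
        have h5 : (2 * (m + 1) : ℝ) ≤ n := by
          have : 2 * (m + 1) ≤ n := by omega
          exact_mod_cast this
        push_cast
        linarith
      have h4 : (b : ℝ) / 4 = (n : ℝ) / 2 * (((M : ℝ)⁻¹) ^ (m - 1) / 2) := by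
        rw [← hnp]; ring
      rw [h4]
      have h5 := mul_le_mul_of_nonneg_right h3 (by positivity : 0 ≤ ((M : ℝ)⁻¹) ^ (m - 1) / 2)
      linarith
    have hX := hX0 ((b : ℝ) / 4) (by linarith)
    rw [hV]
    have h6 : (b : ℝ) ^ (D * (m + 1)) = 4 ^ (D * (m + 1)) * ((b : ℝ) / 4) ^ (D * (m + 1)) := by
      rw [← mul_pow]
      congr 1
      ring
    have h7 : (b : ℝ) ^ (D * (m + 1)) * Real.exp (-((b : ℝ) / 4)) <
        1 / (2 * (L : ℝ) ^ (m + 2)) := by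
      rw [h6, mul_assoc]
      have h8 : (0 : ℝ) < 4 ^ (D * (m + 1)) := by positivity
      calc (4 : ℝ) ^ (D * (m + 1)) * (((b : ℝ) / 4) ^ (D * (m + 1)) * Real.exp (-((b : ℝ) / 4)))
          < 4 ^ (D * (m + 1)) * (1 / (2 * (L : ℝ) ^ (m + 2) * 4 ^ (D * (m + 1)))) :=
            mul_lt_mul_of_pos_left hX h8
        _ = 1 / (2 * (L : ℝ) ^ (m + 2)) := by field_simp
    calc (L : ℝ) ^ (m + 1) * (b : ℝ) ^ (D * (m + 1)) *
          (L * (1 - ((M : ℝ)⁻¹) ^ (m - 1) / 2) ^ (n - (m + 1)))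
        ≤ (L : ℝ) ^ (m + 1) * (b : ℝ) ^ (D * (m + 1)) * (L * Real.exp (-((b : ℝ) / 4))) := by
          refine mul_le_mul_of_nonneg_left ?_ (by positivity)
          exact mul_le_mul_of_nonneg_left h2 hLpos.le
      _ = (L : ℝ) ^ (m + 2) * ((b : ℝ) ^ (D * (m + 1)) * Real.exp (-((b : ℝ) / 4))) := by
          rw [pow_succ (L : ℝ) (m + 1)]; ring
      _ < (L : ℝ) ^ (m + 2) * (1 / (2 * (L : ℝ) ^ (m + 2))) :=
          mul_lt_mul_of_pos_left h7 (by positivity)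
      _ = 1 / 2 := by field_simp
  -- second term
  have h2 : ((L * n : ℕ) : ℝ) ^ (m + 1) *
      ((M : ℝ)⁻¹ * (((m + 1 + 2 * m * K : ℕ) : ℝ) +
          ((L * n : ℕ) : ℝ) * ((M : ℝ)⁻¹) ^ (m - 1)) ^ (2 * m)) ^ K < 1 / 2 := by
    have e1 : ((L * n : ℕ) : ℝ) * ((M : ℝ)⁻¹) ^ (m - 1) = L * b := by
      push_cast
      rw [mul_assoc, hnp]
    rw [e1]
    have e2 : (((m + 1 + 2 * m * K : ℕ) : ℝ) + L * b) ≤ ((Xm : ℝ) + L) * b := by
      have : (1 : ℝ) ≤ b := by exact_mod_cast hb1'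
      have h3 : (0 : ℝ) ≤ (Xm : ℝ) := by positivity
      have h4 : ((m + 1 + 2 * m * K : ℕ) : ℝ) = (Xm : ℝ) := rfl
      rw [h4]
      nlinarith
    have e3 : ((M : ℝ)⁻¹ * (((m + 1 + 2 * m * K : ℕ) : ℝ) + L * b) ^ (2 * m)) ≤
        C0 * ((b : ℝ)⁻¹) ^ (2 * m) := by
      calc (M : ℝ)⁻¹ * (((m + 1 + 2 * m * K : ℕ) : ℝ) + L * b) ^ (2 * m)
          ≤ (M : ℝ)⁻¹ * (((Xm : ℝ) + L) * b) ^ (2 * m) := by
            refine mul_le_mul_of_nonneg_left (pow_le_pow_left₀ (by positivity) e2 _)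
              (by positivity)
        _ = C0 * (((b : ℝ)⁻¹) ^ (4 * m) * (b : ℝ) ^ (2 * m)) := by
            rw [mul_pow, hp]; ring
        _ = C0 * ((b : ℝ)⁻¹) ^ (2 * m) := by
            have e9 : (b : ℝ)⁻¹ * (b : ℝ) = 1 := inv_mul_cancel₀ hbpos.ne'
            congr 1
            rw [show 4 * m = 2 * m + 2 * m by ring, pow_add, mul_assoc, ← mul_pow, e9,
              one_pow, mul_one]
    have e4 : ((M : ℝ)⁻¹ * (((m + 1 + 2 * m * K : ℕ) : ℝ) + L * b) ^ (2 * m)) ^ K ≤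
        C0 ^ K * ((b : ℝ)⁻¹) ^ (D * (m + 1) + 1) := by
      refine (pow_le_pow_left₀ (by positivity) e3 _).trans ?_
      rw [mul_pow, ← pow_mul ((b : ℝ)⁻¹)]
      refine mul_le_mul_of_nonneg_left ?_ (by positivity)
      have hb0 : (0 : ℝ) ≤ (b : ℝ)⁻¹ := by positivity
      refine pow_le_pow_of_le_one hb0 ?_ ?_
      · rw [inv_le_one_iff₀]
        right
        exact_mod_cast hb1'
      · have : K ≤ 2 * m * K := Nat.le_mul_of_pos_left K (by omega)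
        omega
    rw [hV]
    calc (L : ℝ) ^ (m + 1) * (b : ℝ) ^ (D * (m + 1)) *
          ((M : ℝ)⁻¹ * (((m + 1 + 2 * m * K : ℕ) : ℝ) + L * b) ^ (2 * m)) ^ K
        ≤ (L : ℝ) ^ (m + 1) * (b : ℝ) ^ (D * (m + 1)) *
          (C0 ^ K * ((b : ℝ)⁻¹) ^ (D * (m + 1) + 1)) :=
          mul_le_mul_of_nonneg_left e4 (by positivity)
      _ = (L : ℝ) ^ (m + 1) * C0 ^ K * (b : ℝ)⁻¹ *
          ((b : ℝ) ^ (D * (m + 1)) * ((b : ℝ)⁻¹) ^ (D * (m + 1))) := by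
          rw [pow_succ ((b : ℝ)⁻¹)]; ring
      _ = (L : ℝ) ^ (m + 1) * C0 ^ K * (b : ℝ)⁻¹ := by
          rw [← mul_pow, mul_inv_cancel₀ hbpos.ne', one_pow, mul_one]
      _ < 1 / 2 := by
          rw [← div_eq_mul_inv, div_lt_iff₀ hbpos]
          linarith
  rw [mul_add]
  linarith

theorem exists_good (hm : 3 ≤ m) (i0 il : Fin (2 * m)) (h0 : i0.val = 0)
    (hl : il.val = 2 * m - 1) :
    ∃ (L n M : ℕ) (_ : NeZero M) (ω : Sym2 (Fin L × Fin n) → Fin M), 2 * m ≤ L ∧ 1 ≤ n ∧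
      ∀ (S : Finset (Fin L × Fin n)) (r1 r2 : Fin L × Fin n), S.card = m - 1 → r1 ∉ S → r2 ∉ S →
        ¬ Fail i0 il S r1 r2 ω := by
  classical
  obtain ⟨L, n, M, K, hM, hLm, hn, hLK, hlt⟩ := params m hm
  have : NeZero M := ⟨by omega⟩
  set Q : Finset (Finset (Fin L × Fin n) × (Fin L × Fin n) × (Fin L × Fin n)) :=
    (powersetCard (m - 1) univ ×ˢ univ ×ˢ univ).filter (fun q => q.2.1 ∉ q.1 ∧ q.2.2 ∉ q.1)
    with hQ
  set bd : ℝ := L * (1 - ((M : ℝ)⁻¹) ^ (m - 1) / 2) ^ (n - (m + 1)) +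
        ((M : ℝ)⁻¹ * (((m + 1 + 2 * m * K : ℕ) : ℝ) +
          ((L * n : ℕ) : ℝ) * ((M : ℝ)⁻¹) ^ (m - 1)) ^ (2 * m)) ^ K with hbd
  have hmem : ∀ q ∈ Q, q.1.card = m - 1 ∧ q.2.1 ∉ q.1 ∧ q.2.2 ∉ q.1 := by
    intro q hq
    obtain ⟨h1, h2⟩ := mem_filter.1 hq
    exact ⟨(mem_powersetCard.1 (mem_product.1 h1).1).2, h2⟩
  have hle : ∀ q ∈ Q, pr (fun ω : Sym2 (Fin L × Fin n) → Fin M =>
      Fail i0 il q.1 q.2.1 q.2.2 ω) ≤ bd := by
    intro q hq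
    obtain ⟨h1, h2, h3⟩ := hmem q hq
    exact pr_fail hm i0 il h0 hl K hLK hM q.1 h1 q.2.1 q.2.2 h2 h3
  have hbd0 : 0 ≤ bd := by
    have hle1 : ((M : ℝ)⁻¹) ^ (m - 1) ≤ 1 := by
      refine pow_le_one₀ (by positivity) ?_
      rw [inv_le_one_iff₀]
      right
      exact_mod_cast (by omega : 1 ≤ M)
    have : 0 ≤ (1 - ((M : ℝ)⁻¹) ^ (m - 1) / 2) := by linarith
    positivity
  have hQc : (Q.card : ℝ) ≤ ((L * n : ℕ) : ℝ) ^ (m + 1) := by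
    have h1 : Q.card ≤ (L * n) ^ (m + 1) := by
      refine (Finset.card_filter_le _ _).trans ?_
      rw [card_product, card_product, card_powersetCard, card_univ, Fintype.card_prod,
        Fintype.card_fin, Fintype.card_fin]
      have h2 := Nat.choose_le_pow (L * n) (m - 1)
      have h3 : (L * n) ^ (m + 1) = (L * n) ^ (m - 1) * ((L * n) * (L * n)) := by
        rw [← pow_two, ← pow_add]
        congr 1
        omega
      rw [h3]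
      exact Nat.mul_le_mul_right _ h2
    exact_mod_cast h1
  have hpr : pr (fun ω : Sym2 (Fin L × Fin n) → Fin M =>
      ∃ q ∈ Q, Fail i0 il q.1 q.2.1 q.2.2 ω) < 1 := by
    refine lt_of_le_of_lt ((pr_exists Q _).trans (Finset.sum_le_sum hle)) ?_
    rw [sum_const, nsmul_eq_mul]
    exact lt_of_le_of_lt (mul_le_mul_of_nonneg_right hQc hbd0) hlt
  have hne : Nonempty (Fin M) := ⟨0⟩
  obtain ⟨ω, hω⟩ := exists_of_pr_lt hpr
  refine ⟨L, n, M, inferInstance, ω, hLm, hn, fun S r1 r2 hS h1 h2 hF => hω ⟨(S, r1, r2), ?_, hF⟩⟩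
  refine mem_filter.2 ⟨mem_product.2 ⟨mem_powersetCard.2 ⟨subset_univ _, hS⟩,
    mem_product.2 ⟨mem_univ _, mem_univ _⟩⟩, h1, h2⟩

end Pool.Agent.X152.PK
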