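import Pool.Agent.X152.PK.Seq
set_option autoImplicit false

/-!
The probability that all candidates are bad.
-/

namespace Pool.Agent.X152.PK

open Finset

variable {M : ℕ} [NeZero M] {m L n : ℕ}

/-- all the vertices joined to all of `S` and not joined to `r1`, `r2` are bad -/
def Fail {V : Type} (i0 il : Fin (2 * m)) [DecidableEq V] (S : Finset V) (r1 r2 : V)
    (ω : Sym2 V → Fin M) : Prop :=
  ∀ w, w ∉ S → w ≠ r1 → w ≠ r2 → Cand S r1 r2 w ω → Bad i0 il S ω w

theorem pr_fail (hm : 3 ≤ m) (i0 il : Fin (2 * m)) (h0 : i0.val = 0) (hl : il.val = 2 * m - 1)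
    (K : ℕ) (hL : 2 * m * K ≤ L) (hM : 4 ≤ M) (S : Finset (Fin L × Fin n)) (hS : S.card = m - 1)
    (r1 r2 : Fin L × Fin n) (h1 : r1 ∉ S) (h2 : r2 ∉ S) :
    pr (fun ω : Sym2 (Fin L × Fin n) → Fin M => Fail i0 il S r1 r2 ω) ≤
      L * (1 - ((M : ℝ)⁻¹) ^ (m - 1) / 2) ^ (n - (m + 1)) +
        ((M : ℝ)⁻¹ * (((m + 1 + 2 * m * K : ℕ) : ℝ) +
          ((L * n : ℕ) : ℝ) * ((M : ℝ)⁻¹) ^ (m - 1)) ^ (2 * m)) ^ K := by
  classical
  set T : Finset (Fin L × Fin n) := insert r1 (insert r2 S) with hT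
  have hTcard : T.card ≤ m + 1 := by
    have a := Finset.card_insert_le r1 (insert r2 S)
    have b := Finset.card_insert_le r2 S
    rw [hT]
    omega
  set B : Fin L → Finset (Fin L × Fin n) := fun j => (univ.image (fun i : Fin n => (j, i))) \ T
    with hB
  have hBT : ∀ j, ∀ w ∈ B j, w ∉ T := fun j w hw => (mem_sdiff.1 hw).2
  have hBT' : ∀ w, w ∉ T → w ∉ S ∧ w ≠ r1 ∧ w ≠ r2 := by
    intro w hw
    simp only [hT, mem_insert, not_or] at hw
    exact ⟨hw.2.2, hw.1, hw.2.1⟩
  have hBcard : ∀ j, n - (m + 1) ≤ (B j).card := by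
    intro j
    have e1 : (univ.image (fun i : Fin n => (j, i))).card = n := by
      rw [Finset.card_image_of_injective _ (fun a b h => (Prod.ext_iff.1 h).2)]
      simp
    have e2 := Finset.le_card_sdiff T (univ.image (fun i : Fin n => (j, i)))
    rw [e1] at e2
    have : (B j).card = ((univ.image (fun i : Fin n => (j, i))) \ T).card := rfl
    omega
  have hsub : ∀ ω : Sym2 (Fin L × Fin n) → Fin M, Fail i0 il S r1 r2 ω →
      (∃ j ∈ (univ : Finset (Fin L)), ∀ w ∈ B j, ¬ Cand S r1 r2 w ω) ∨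
        ((∀ e ∈ (∅ : Finset (Sym2 (Fin L × Fin n))), ω e = 0) ∧ SeqP i0 il S ω K T) := by
    intro ω hF
    by_cases hc : ∃ j ∈ (univ : Finset (Fin L)), ∀ w ∈ B j, ¬ Cand S r1 r2 w ω
    · exact Or.inl hc
    · right
      push Not at hc
      refine ⟨by simp, ?_⟩
      choose g hg1 hg2 using fun j => hc j (mem_univ j)
      have hginj : Function.Injective g := by
        intro j j' hjj
        have a : (g j).1 = j := by
          obtain ⟨i, -, hi⟩ := mem_image.1 (mem_sdiff.1 (hg1 j)).1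
          rw [← hi]
        have b : (g j').1 = j' := by
          obtain ⟨i, -, hi⟩ := mem_image.1 (mem_sdiff.1 (hg1 j')).1
          rw [← hi]
        rw [← a, ← b, hjj]
      refine seq_of_bad (by omega) i0 il S ω (univ.image g) ?_ K T ?_
      · intro w hw
        obtain ⟨j, -, rfl⟩ := mem_image.1 hw
        obtain ⟨a, b, c⟩ := hBT' _ (hBT j _ (hg1 j))
        exact hF _ a b c (hg2 j)
      · have e1 : univ.image g \ T = univ.image g := by
          refine Finset.sdiff_eq_self_of_disjoint ?_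
          rw [Finset.disjoint_left]
          intro w hw
          obtain ⟨j, -, rfl⟩ := mem_image.1 hw
          exact hBT j _ (hg1 j)
        rw [e1, Finset.card_image_of_injective _ hginj]
        simpa using hL
  refine (pr_mono hsub).trans ((pr_or _ _).trans (add_le_add ?_ ?_))
  · refine (pr_exists _ _).trans ?_
    have hp1 : ((M : ℝ)⁻¹) ^ (m - 1) ≤ 1 := by
      refine pow_le_one₀ (by positivity) ?_
      rw [inv_le_one_iff₀]
      right
      exact_mod_cast (by omega : 1 ≤ M)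
    have hp0 : 0 ≤ ((M : ℝ)⁻¹) ^ (m - 1) := by positivity
    have : ∀ j ∈ (univ : Finset (Fin L)), pr (fun ω : Sym2 (Fin L × Fin n) → Fin M =>
        ∀ w ∈ B j, ¬ Cand S r1 r2 w ω) ≤ (1 - ((M : ℝ)⁻¹) ^ (m - 1) / 2) ^ (n - (m + 1)) := by
      intro j _
      refine (block hM S r1 r2 h1 h2 (B j) (fun w hw => hBT' w (hBT j w hw))).trans ?_
      rw [hS]
      exact pow_le_pow_of_le_one (by linarith) (by linarith) (hBcard j)
    refine (Finset.sum_le_sum this).trans ?_
    simp
  · have h := pr_seq (V := Fin L × Fin n) (M := M) hm i0 il h0 hl S hS (m + 1 + 2 * m * K)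
      (by omega) K T ∅ (fun x hx => by simp [hT, hx]) (by simp) (by omega)
    rw [card_empty, pow_zero, one_mul] at h
    rw [Fintype.card_prod, Fintype.card_fin, Fintype.card_fin] at h
    exact h

end Pool.Agent.X152.PK
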