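import Pool.Agent.X152.PK.Exist
import Pool.Prelude.Def_F_8db9d53c
set_option autoImplicit false

/-!
The graph, its robber, and its induced paths.
-/

namespace Pool.Agent.X152.PK

open Finset N6ef48c04

section game

variable {V : Type} [Fintype V] [DecidableEq V] (G : SimpleGraph V)

omit [Fintype V] in
/-- the robber escapes from a safe position -/
theorem no_catch {t : ℕ}
    (hG : ∀ (S : Finset V) (r : V), S.card ≤ t → r ∉ S →
      ∃ w, w ∉ S ∧ (∀ x ∈ S, ¬ G.Adj x w) ∧ G.Adj r w) :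
    ∀ (n : ℕ) (c : Fin t → V) (r : V), (∀ i, c i ≠ r ∧ ¬ G.Adj (c i) r) →
      ¬ CopsCatchWithin G t n c r := by
  intro n
  induction n with
  | zero =>
    rintro c r h ⟨i, hi⟩
    exact (h i).1 hi
  | succ n ih =>
    rintro c r h (⟨i, hi⟩ | ⟨c', hc', hcase⟩)
    · exact (h i).1 hi
    · have hr : ∀ i, c' i ≠ r := by
        intro i hi
        rcases hc' i with h1 | h1
        · exact (h i).1 (h1.trans hi)
        · rw [hi] at h1
          exact (h i).2 h1
      rcases hcase with ⟨i, hi⟩ | hcase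
      · exact hr i hi
      · obtain ⟨w, hw1, hw2, hw3⟩ := hG (univ.image c') r
          (Finset.card_image_le.trans (by simp)) (by
            intro hm
            obtain ⟨i, -, hi⟩ := mem_image.1 hm
            exact hr i hi)
        refine ih c' w (fun i => ⟨fun hi => hw1 ?_, hw2 _ (mem_image_of_mem _ (mem_univ _))⟩)
          (hcase w (Or.inr hw3))
        rw [← hi]
        exact mem_image_of_mem _ (mem_univ _)

theorem le_copNumber {t : ℕ} (hV : t < Fintype.card V)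
    (hG : ∀ (S : Finset V) (r : V), S.card ≤ t → r ∉ S →
      ∃ w, w ∉ S ∧ (∀ x ∈ S, ¬ G.Adj x w) ∧ G.Adj r w) :
    t + 1 ≤ copNumber G := by
  have hne : {k | CopsWin G k}.Nonempty := by
    refine ⟨Fintype.card V, (Fintype.equivFin V).symm, fun r => ⟨0, Fintype.equivFin V r, ?_⟩⟩
    simp
  refine le_csInf hne ?_
  intro k hk
  by_contra hlt
  have hkt : k ≤ t := by omega
  obtain ⟨c, hc⟩ := hk
  have hGk : ∀ (S : Finset V) (r : V), S.card ≤ k → r ∉ S →
      ∃ w, w ∉ S ∧ (∀ x ∈ S, ¬ G.Adj x w) ∧ G.Adj r w := fun S r h => hG S r (h.trans hkt)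
  obtain ⟨r0, hr0⟩ : ∃ r0, r0 ∉ univ.image c := by
    by_contra hall
    push Not at hall
    have : (univ : Finset V) ⊆ univ.image c := fun x _ => hall x
    have h1 := Finset.card_le_card this
    have h2 : (univ.image c).card ≤ k := Finset.card_image_le.trans (by simp)
    rw [card_univ] at h1
    omega
  obtain ⟨w, hw1, hw2, -⟩ := hGk (univ.image c) r0 (Finset.card_image_le.trans (by simp)) hr0
  obtain ⟨n, hn⟩ := hc w
  refine no_catch G hGk n c w (fun i => ⟨fun hi => hw1 ?_, hw2 _ (mem_image_of_mem _ (mem_univ _))⟩)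
    hn
  rw [← hi]
  exact mem_image_of_mem _ (mem_univ _)

end game

section graph

variable {V : Type} {M m : ℕ} [NeZero M]

/-- the copy `φ` of the complement of the path is present -/
def PresF (ω : Sym2 V → Fin M) (φ : Fin (2 * m) → V) : Prop :=
  ∀ i j : Fin (2 * m), i.val + 2 ≤ j.val → ω s(φ i, φ j) = 0

/-- the graph `H` after the deletion -/
def HG (i0 il : Fin (2 * m)) (ω : Sym2 V → Fin M) : SimpleGraph V where
  Adj x y := x ≠ y ∧ ω s(x, y) = 0 ∧ ¬ ∃ φ : Fin (2 * m) → V, Function.Injective φ ∧ PresF ω φ ∧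
    ((φ i0 = x ∧ φ il = y) ∨ (φ i0 = y ∧ φ il = x))
  symm := ⟨by
    intro x y h
    refine ⟨h.1.symm, by rw [Sym2.eq_swap]; exact h.2.1, ?_⟩
    rintro ⟨φ, h1, h2, h3⟩
    exact h.2.2 ⟨φ, h1, h2, h3.symm⟩⟩
  loopless := ⟨fun x h => h.1 rfl⟩

theorem no_path (hm : 2 ≤ m) (i0 il : Fin (2 * m)) (h0 : i0.val = 0) (hl : il.val = 2 * m - 1)
    (ω : Sym2 V → Fin M) : IsEmpty (SimpleGraph.pathGraph (2 * m) ↪g (HG i0 il ω)ᶜ) := by
  refine ⟨fun f => ?_⟩
  have hadj : ∀ i j : Fin (2 * m), i.val + 2 ≤ j.val → (HG i0 il ω).Adj (f i) (f j) := by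
    intro i j hij
    have hne : f i ≠ f j := fun h => by
      have := f.injective h
      rw [this] at hij
      omega
    have hnot : ¬ (HG i0 il ω)ᶜ.Adj (f i) (f j) := by
      rw [f.map_adj_iff, SimpleGraph.pathGraph_adj]
      omega
    rw [SimpleGraph.compl_adj] at hnot
    by_contra hc
    exact hnot ⟨hne, hc⟩
  have hP : PresF ω f := fun i j hij => (hadj i j hij).2.1
  exact (hadj i0 il (by omega)).2.2 ⟨f, f.injective, hP, Or.inl ⟨rfl, rfl⟩⟩

theorem rev_pres (ω : Sym2 V → Fin M) (φ : Fin (2 * m) → V) (h : PresF ω φ) :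
    PresF ω (fun i => φ (Fin.rev i)) := by
  intro i j hij
  show ω s(φ (Fin.rev i), φ (Fin.rev j)) = 0
  rw [Sym2.eq_swap]
  refine h _ _ ?_
  rw [Fin.val_rev, Fin.val_rev]
  omega

theorem robber [DecidableEq V] (i0 il : Fin (2 * m)) (h0 : i0.val = 0)
    (hl : il.val = 2 * m - 1) (ω : Sym2 V → Fin M) (S : Finset V) (r1 r2 : V)
    (hF : ¬ Fail i0 il S r1 r2 ω) :
    ∃ w, w ∉ S ∧ (∀ x ∈ S, ¬ (HG i0 il ω)ᶜ.Adj x w) ∧ (HG i0 il ω)ᶜ.Adj r1 w ∧
      (HG i0 il ω)ᶜ.Adj r2 w := by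
  unfold Fail at hF
  push Not at hF
  obtain ⟨w, hwS, hw1, hw2, ⟨hc1, hc2, hc3⟩, hbad⟩ := hF
  have key : ∀ φ : Fin (2 * m) → V, Function.Injective φ → PresF ω φ → φ i0 ∈ S → φ il = w →
      False := by
    intro φ hinj hP h1 h2
    refine hbad ⟨φ, hinj, h1, h2, fun e he => ?_⟩
    rcases mem_union.1 he with h | h
    · obtain ⟨g, hg, rfl⟩ := mem_image.1 h
      obtain ⟨⟨i, j⟩, hij, rfl⟩ := mem_image.1 hg
      exact hP i j (mem_filter.1 hij).2
    · obtain ⟨x, hx, rfl⟩ := mem_image.1 h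
      rw [h2]
      exact hc1 x hx
  refine ⟨w, hwS, ?_, ?_, ?_⟩
  · intro x hx hadj
    rw [SimpleGraph.compl_adj] at hadj
    refine hadj.2 ⟨hadj.1, hc1 x hx, ?_⟩
    rintro ⟨φ, hinj, hP, ⟨h1, h2⟩ | ⟨h1, h2⟩⟩
    · exact key φ hinj hP (by rw [h1]; exact hx) h2
    · have e0 : Fin.rev i0 = il := by
        ext; rw [Fin.val_rev]; omega
      have el : Fin.rev il = i0 := by
        ext; rw [Fin.val_rev]; omega
      refine key (fun i => φ (Fin.rev i)) (hinj.comp Fin.rev_injective) (rev_pres ω φ hP) ?_ ?_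
      · show φ (Fin.rev i0) ∈ S
        rw [e0, h2]; exact hx
      · show φ (Fin.rev il) = w
        rw [el, h1]
  · rw [SimpleGraph.compl_adj]
    exact ⟨hw1.symm, fun h => hc2 h.2.1⟩
  · rw [SimpleGraph.compl_adj]
    exact ⟨hw2.symm, fun h => hc3 h.2.1⟩

end graph

theorem main {m : ℕ} (hm : 3 ≤ m) : ∃ (V : Type) (_ : Fintype V) (G : SimpleGraph V),
    G.Connected ∧ IsEmpty (SimpleGraph.pathGraph (2 * m) ↪g G) ∧ m ≤ copNumber G := by
  classical
  set i0 : Fin (2 * m) := ⟨0, by omega⟩ with hi0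
  set il : Fin (2 * m) := ⟨2 * m - 1, by omega⟩ with hil
  obtain ⟨L, n, M, hMz, ω, hL, hn, hω⟩ := exists_good hm i0 il rfl rfl
  have hcard : 2 * m ≤ Fintype.card (Fin L × Fin n) := by
    rw [Fintype.card_prod, Fintype.card_fin, Fintype.card_fin]
    calc 2 * m ≤ L := hL
      _ = L * 1 := (mul_one _).symm
      _ ≤ L * n := Nat.mul_le_mul_left _ hn
  have hrob : ∀ (S : Finset (Fin L × Fin n)) (r1 r2 : Fin L × Fin n), S.card ≤ m - 1 → r1 ∉ S →
      r2 ∉ S → ∃ w, w ∉ S ∧ (∀ x ∈ S, ¬ (HG i0 il ω)ᶜ.Adj x w) ∧ (HG i0 il ω)ᶜ.Adj r1 w ∧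
      (HG i0 il ω)ᶜ.Adj r2 w := by
    intro S r1 r2 hS h1 h2
    have hsub : S ⊆ (univ.erase r1).erase r2 := by
      intro x hx
      refine mem_erase.2 ⟨fun h => h2 (h ▸ hx), mem_erase.2 ⟨fun h => h1 (h ▸ hx), mem_univ _⟩⟩
    have hc : m - 1 ≤ ((univ.erase r1).erase r2).card := by
      have a : (univ.erase r1).card = Fintype.card (Fin L × Fin n) - 1 := by
        rw [card_erase_of_mem (mem_univ _), card_univ]
      have b := Finset.pred_card_le_card_erase (s := univ.erase r1) (a := r2)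
      omega
    obtain ⟨S', hSS', hS', hcS'⟩ := Finset.exists_subsuperset_card_eq hsub hS hc
    have h1' : r1 ∉ S' := fun h => by simpa using hS' h
    have h2' : r2 ∉ S' := fun h => by simpa using hS' h
    obtain ⟨w, a, b, c, d⟩ := robber i0 il rfl rfl ω S' r1 r2 (hω S' r1 r2 hcS' h1' h2')
    exact ⟨w, fun h => a (hSS' h), fun x hx => b x (hSS' hx), c, d⟩
  refine ⟨Fin L × Fin n, inferInstance, (HG i0 il ω)ᶜ, ?_, no_path (by omega) i0 il rfl rfl ω, ?_⟩
  · have hne : Nonempty (Fin L × Fin n) := by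
      rw [← Fintype.card_pos_iff]; omega
    refine ⟨fun u v => ?_⟩
    obtain ⟨w, -, -, h1, h2⟩ := hrob ∅ u v (by simp) (by simp) (by simp)
    exact h1.reachable.trans h2.symm.reachable
  · have h := le_copNumber (HG i0 il ω)ᶜ (t := m - 1) (by omega) (fun S r hS hr => by
      obtain ⟨w, a, b, c, -⟩ := hrob S r r hS hr hr
      exact ⟨w, a, b, c⟩)
    omega

end Pool.Agent.X152.PK
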