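import Mathlib
set_option autoImplicit false

/-!
Edges of the complement of a path: a lower bound for the number of nonconsecutive pairs that meet a
set `R` of vertices of the path.
-/

namespace Pool.Agent.X152.PK

open Finset

/-- the pairs of nonconsecutive vertices of the path `0, 1, …, k - 1` -/
def FE (k : ℕ) : Finset (Sym2 (Fin k)) :=
  ((univ : Finset (Fin k × Fin k)).filter (fun p => p.1.val + 2 ≤ p.2.val)).image
    (fun p => s(p.1, p.2))

open Classical in
/-- those that meet `R` -/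
noncomputable def FR {k : ℕ} (R : Finset (Fin k)) : Finset (Sym2 (Fin k)) :=
  (FE k).filter (fun e => ∃ i ∈ R, i ∈ e)

/-- ordered consecutive pairs meeting `R` -/
def Co {k : ℕ} (R : Finset (Fin k)) : Finset (Fin k × Fin k) :=
  (univ : Finset (Fin k × Fin k)).filter (fun p => p.1.val + 1 = p.2.val ∧ (p.1 ∈ R ∨ p.2 ∈ R))

theorem card_Co_le {k : ℕ} (R : Finset (Fin k)) : (Co R).card ≤ k - 1 := by
  have h : (Co R).card ≤ (range (k - 1)).card := by
    refine Finset.card_le_card_of_injOn (fun p => p.1.val) ?_ ?_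
    · intro p hp
      simp only [Co, coe_filter, mem_univ, true_and, Set.mem_ofPred_eq] at hp
      have := p.2.isLt
      simp only [coe_range, Set.mem_Iio]
      omega
    · intro p hp q hq hpq
      simp only [Co, coe_filter, mem_univ, true_and, Set.mem_ofPred_eq] at hp hq
      have hpq' : p.1.val = q.1.val := hpq
      ext <;> omega
  simpa using h

theorem card_Co_le' {k : ℕ} (R : Finset (Fin k)) : (Co R).card ≤ 2 * R.card := by
  classical
  have h : Co R ⊆ (Co R).filter (fun p => p.1 ∈ R) ∪ (Co R).filter (fun p => p.2 ∈ R) := by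
    intro p hp
    have hp' := hp
    simp only [Co, mem_filter, mem_univ, true_and] at hp'
    simp only [mem_union, mem_filter]
    rcases hp'.2 with h | h
    · exact Or.inl ⟨hp, h⟩
    · exact Or.inr ⟨hp, h⟩
  have h1 : ((Co R).filter (fun p => p.1 ∈ R)).card ≤ R.card := by
    refine Finset.card_le_card_of_injOn (fun p => p.1) ?_ ?_
    · intro p hp
      simp only [coe_filter, Set.mem_ofPred_eq] at hp
      exact hp.2
    · intro p hp q hq hpq
      simp only [Co, coe_filter, mem_filter, mem_univ, true_and, Set.mem_ofPred_eq] at hp hq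
      have hpq' : p.1 = q.1 := hpq
      have : p.1.val = q.1.val := by rw [hpq']
      ext <;> omega
  have h2 : ((Co R).filter (fun p => p.2 ∈ R)).card ≤ R.card := by
    refine Finset.card_le_card_of_injOn (fun p => p.2) ?_ ?_
    · intro p hp
      simp only [coe_filter, Set.mem_ofPred_eq] at hp
      exact hp.2
    · intro p hp q hq hpq
      simp only [Co, coe_filter, mem_filter, mem_univ, true_and, Set.mem_ofPred_eq] at hp hq
      have hpq' : p.2 = q.2 := hpq
      have : p.2.val = q.2.val := by rw [hpq']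
      ext <;> omega
  calc (Co R).card ≤ _ := Finset.card_le_card h
    _ ≤ _ := Finset.card_union_le _ _
    _ ≤ 2 * R.card := by omega

theorem cover {k : ℕ} (R : Finset (Fin k)) :
    k.choose 2 ≤ (FR R).card + (k - R.card).choose 2 + (Co R).card := by
  classical
  have h : ((univ : Finset (Fin k)).offDiag.image Sym2.mk.uncurry) ⊆
      (FR R ∪ (Rᶜ.offDiag.image Sym2.mk.uncurry)) ∪ (Co R).image (fun p => s(p.1, p.2)) := by
    intro e he
    obtain ⟨⟨i, j⟩, hij, rfl⟩ := mem_image.1 he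
    rw [mem_offDiag] at hij
    have hne : i ≠ j := hij.2.2
    have key : ∀ i j : Fin k, i.val < j.val → s(i, j) ∈
        (FR R ∪ (Rᶜ.offDiag.image Sym2.mk.uncurry)) ∪ (Co R).image (fun p => s(p.1, p.2)) := by
      intro i j hlt
      have hne : i ≠ j := fun h => by rw [h] at hlt; exact lt_irrefl _ hlt
      by_cases hR : i ∈ R ∨ j ∈ R
      · by_cases h2 : i.val + 2 ≤ j.val
        · refine mem_union_left _ (mem_union_left _ ?_)
          refine mem_filter.2 ⟨mem_image.2 ⟨(i, j), mem_filter.2 ⟨mem_univ _, h2⟩, rfl⟩, ?_⟩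
          rcases hR with h | h
          · exact ⟨i, h, Sym2.mem_mk_left _ _⟩
          · exact ⟨j, h, Sym2.mem_mk_right _ _⟩
        · refine mem_union_right _ (mem_image.2 ⟨(i, j), mem_filter.2 ⟨mem_univ _, ?_, hR⟩, rfl⟩)
          show i.val + 1 = j.val
          omega
      · push Not at hR
        refine mem_union_left _ (mem_union_right _ (mem_image.2 ⟨(i, j), ?_, rfl⟩))
        rw [mem_offDiag]
        exact ⟨mem_compl.2 hR.1, mem_compl.2 hR.2, hne⟩
    rcases lt_or_gt_of_ne (fun h => hne (Fin.ext h) : i.val ≠ j.val) with h | h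
    · exact key i j h
    · have := key j i h
      rwa [Sym2.eq_swap] at this
  have hc := Finset.card_le_card h
  rw [Sym2.card_image_offDiag] at hc
  have h1 : (((univ : Finset (Fin k))).card).choose 2 = k.choose 2 := by simp
  rw [h1] at hc
  have h2 := Finset.card_union_le (FR R ∪ (Rᶜ.offDiag.image Sym2.mk.uncurry))
    ((Co R).image (fun p => s(p.1, p.2)))
  have h3 := Finset.card_union_le (FR R) (Rᶜ.offDiag.image Sym2.mk.uncurry)
  have h4 : (Rᶜ.offDiag.image Sym2.mk.uncurry).card = (k - R.card).choose 2 := by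
    rw [Sym2.card_image_offDiag, card_compl, Fintype.card_fin]
  have h5 : ((Co R).image (fun p => s(p.1, p.2))).card ≤ (Co R).card := Finset.card_image_le
  omega

theorem two_choose (n : ℕ) : 2 * (n.choose 2 : ℤ) = n * (n - 1) := by
  induction n with
  | zero => simp
  | succ n ih =>
    rw [Nat.choose_succ_succ' n 1]
    push_cast
    simp only [Nat.choose_one_right]
    linarith

theorem card_FR {m : ℕ} (hm : 3 ≤ m) (R : Finset (Fin (2 * m))) (h1 : 1 ≤ R.card)
    (h2 : R.card ≤ 2 * m - 2) : (m - 1) * R.card + 1 ≤ (FR R).card := by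
  have hc := cover R
  have ha := card_Co_le R
  have hb := card_Co_le' R
  have e1 := two_choose (2 * m)
  have e2 := two_choose (2 * m - R.card)
  obtain ⟨μ, rfl⟩ : ∃ μ, m = μ + 3 := ⟨m - 3, by omega⟩
  set ρ := R.card with hρ
  obtain ⟨α, hα⟩ : ∃ α, 2 * (μ + 3) = ρ + α := ⟨2 * (μ + 3) - ρ, by omega⟩
  have hα' : 2 * (μ + 3) - ρ = α := by omega
  rw [hα'] at hc e2
  set C1 := (2 * (μ + 3)).choose 2 with hC1
  set C2 := α.choose 2 with hC2
  set c := (Co R).card with hcc
  set f := (FR R).card with hf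
  clear_value ρ C1 C2 c f
  have hαz : (α : ℤ) = 2 * (μ + 3) - ρ := by push_cast [← Nat.cast_inj (R := ℤ)] at hα; linarith
  have hcz : (C1 : ℤ) ≤ f + C2 + c := by exact_mod_cast hc
  have e1' : 2 * (C1 : ℤ) = (2 * (μ + 3)) * ((2 * (μ + 3)) - 1) := by
    have := e1; push_cast at this; linarith
  have goal : (((μ + 3 - 1 : ℕ) : ℤ)) * ρ + 1 ≤ f := by
    have : ((μ + 3 - 1 : ℕ) : ℤ) = μ + 2 := by push_cast [Nat.cast_sub]; omega
    rw [this]
    have hρ1 : (1 : ℤ) ≤ ρ := by exact_mod_cast h1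
    have hμ : (0 : ℤ) ≤ μ := by positivity
    rw [hαz] at e2
    rcases Nat.lt_or_ge ρ 2 with h | h
    · have hr : (ρ : ℤ) = 1 := by omega
      have hcb : (c : ℤ) ≤ 2 * ρ := by exact_mod_cast hb
      rw [hr] at e2 hcb ⊢
      have e3 : 2 * (C2 : ℤ) = 4 * (μ * μ) + 18 * μ + 20 := by rw [e2]; ring
      have e4 : 2 * (C1 : ℤ) = 4 * (μ * μ) + 22 * μ + 30 := by rw [e1']; ring
      linarith
    rcases Nat.lt_or_ge ρ (2 * (μ + 3) - 3) with h' | h'
    · have hρ2 : (2 : ℤ) ≤ ρ := by exact_mod_cast h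
      have h'' : (ρ : ℤ) ≤ 2 * (μ + 3) - 4 := by
        have : ρ ≤ 2 * (μ + 3) - 4 := by omega
        have h3 : ρ + 4 ≤ 2 * (μ + 3) := by omega
        have h4 : ((ρ + 4 : ℕ) : ℤ) ≤ ((2 * (μ + 3) : ℕ) : ℤ) := by exact_mod_cast h3
        push_cast at h4
        linarith
      have hcb : (c : ℤ) ≤ 2 * ρ := by exact_mod_cast hb
      have e3 : 2 * (C2 : ℤ) = (2 * μ + 6) * (2 * μ + 5) - ρ * (4 * μ + 11 - ρ) := by rw [e2]; ring
      have e4 : 2 * (C1 : ℤ) = (2 * μ + 6) * (2 * μ + 5) := by rw [e1']; ring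
      have e5 := mul_nonneg (sub_nonneg.2 hρ2) (sub_nonneg.2 h'')
      have e6 : ((ρ : ℤ) - 2) * (2 * (μ + 3) - 4 - ρ) = ρ * (4 * μ + 11 - ρ)
        - 2 * ((μ + 2) * ρ) - 3 * ρ - 4 * μ - 4 := by ring
      have e7 : ((ρ : ℤ) - 2) * (2 * (μ + 3) - 4 - ρ) = ρ * (2 * μ + 7 - ρ) - 3 * ρ - 4 * μ - 4 := by ring
      nlinarith
    · have hca : (c : ℤ) ≤ 2 * (μ + 3) - 1 := by
        have h3 : c + 1 ≤ 2 * (μ + 3) := by omega
        have h4 : ((c + 1 : ℕ) : ℤ) ≤ ((2 * (μ + 3) : ℕ) : ℤ) := by exact_mod_cast h3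
        push_cast at h4
        linarith
      have hρ' : ρ = 2 * (μ + 3) - 3 ∨ ρ = 2 * (μ + 3) - 2 := by omega
      have hμ2 : (0 : ℤ) ≤ (μ : ℤ) * μ := mul_nonneg hμ hμ
      rcases hρ' with hr | hr
      · have h9 : (ρ : ℤ) = 2 * μ + 3 := by omega
        rw [h9] at e2 ⊢
        have e3 : 2 * (C2 : ℤ) = 6 := by rw [e2]; ring
        have e4 : 2 * (C1 : ℤ) = 4 * (μ * μ) + 22 * μ + 30 := by rw [e1']; ring
        have e5 : ((μ : ℤ) + 2) * (2 * μ + 3) + 1 = 2 * (μ * μ) + 7 * μ + 7 := by ring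
        rw [e5]
        linarith
      · have h9 : (ρ : ℤ) = 2 * μ + 4 := by omega
        rw [h9] at e2 ⊢
        have e3 : 2 * (C2 : ℤ) = 2 := by rw [e2]; ring
        have e4 : 2 * (C1 : ℤ) = 4 * (μ * μ) + 22 * μ + 30 := by rw [e1']; ring
        have e5 : ((μ : ℤ) + 2) * (2 * μ + 4) + 1 = 2 * (μ * μ) + 8 * μ + 9 := by ring
        rw [e5]
        linarith
  exact_mod_cast goal

theorem card_FR' {m : ℕ} (hm : 3 ≤ m) (R : Finset (Fin (2 * m))) (h1 : R.card = 2 * m - 1) :
    (m - 1) * R.card ≤ (FR R).card := by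
  have hc := cover R
  have ha := card_Co_le R
  have e1 := two_choose (2 * m)
  have h2 : 2 * m - R.card = 1 := by omega
  rw [h2] at hc
  have h3 : (1 : ℕ).choose 2 = 0 := rfl
  rw [h3] at hc
  obtain ⟨μ, rfl⟩ : ∃ μ, m = μ + 3 := ⟨m - 3, by omega⟩
  rw [h1]
  have goal : (((μ + 3 - 1 : ℕ) : ℤ)) * ((2 * (μ + 3) - 1 : ℕ) : ℤ) ≤ (FR R).card := by
    have a1 : ((μ + 3 - 1 : ℕ) : ℤ) = μ + 2 := by push_cast [Nat.cast_sub]; omega
    have a2 : ((2 * (μ + 3) - 1 : ℕ) : ℤ) = 2 * μ + 5 := by push_cast [Nat.cast_sub]; omega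
    rw [a1, a2]
    have hcz : ((2 * (μ + 3)).choose 2 : ℤ) ≤ (FR R).card + (Co R).card := by exact_mod_cast hc
    have hca : ((Co R).card : ℤ) ≤ 2 * μ + 5 := by
      have : (Co R).card ≤ 2 * μ + 5 := by omega
      exact_mod_cast this
    push_cast at e1
    nlinarith
  exact_mod_cast goal

end Pool.Agent.X152.PK
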