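import Mathlib
set_option autoImplicit false

/-!
Uniform probability on a finite set of functions, by counting.
-/

namespace Pool.Agent.X152.PK

open Finset

variable {ι κ : Type} [Fintype ι] [DecidableEq ι] [Fintype κ]

open Classical in
/-- the proportion of the functions with the property `A` -/
noncomputable def pr (A : (ι → κ) → Prop) : ℝ :=
  ((univ.filter A).card : ℝ) / (Fintype.card (ι → κ) : ℝ)

theorem pr_eq (A : (ι → κ) → Prop) [DecidablePred A] :
    pr A = ((univ.filter A).card : ℝ) / (Fintype.card (ι → κ) : ℝ) := by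
  unfold pr
  have : (@Finset.filter _ A (fun a => Classical.propDecidable _) univ) = univ.filter A := by
    ext; simp
  rw [this]

theorem pr_nonneg (A : (ι → κ) → Prop) : 0 ≤ pr A := by
  unfold pr; positivity

theorem pr_mono {A B : (ι → κ) → Prop} (h : ∀ ω, A ω → B ω) : pr A ≤ pr B := by
  classical
  simp only [pr_eq]
  refine div_le_div_of_nonneg_right ?_ (by positivity)
  exact_mod_cast Finset.card_le_card (fun ω hω => mem_filter.2 ⟨mem_univ _, h ω (mem_filter.1 hω).2⟩)

theorem pr_or (A B : (ι → κ) → Prop) : pr (fun ω => A ω ∨ B ω) ≤ pr A + pr B := by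
  classical
  simp only [pr_eq]
  rw [← add_div]
  refine div_le_div_of_nonneg_right ?_ (by positivity)
  have : (univ.filter (fun ω => A ω ∨ B ω)) ⊆ univ.filter A ∪ univ.filter B := by
    intro ω hω
    rcases (mem_filter.1 hω).2 with h | h
    · exact mem_union_left _ (mem_filter.2 ⟨mem_univ _, h⟩)
    · exact mem_union_right _ (mem_filter.2 ⟨mem_univ _, h⟩)
  exact_mod_cast (Finset.card_le_card this).trans (Finset.card_union_le _ _)

theorem pr_exists {α : Type} (s : Finset α) (A : α → (ι → κ) → Prop) :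
    pr (fun ω => ∃ a ∈ s, A a ω) ≤ ∑ a ∈ s, pr (A a) := by
  classical
  simp only [pr_eq]
  rw [← Finset.sum_div]
  refine div_le_div_of_nonneg_right ?_ (by positivity)
  have : (univ.filter (fun ω => ∃ a ∈ s, A a ω)) ⊆ s.biUnion (fun a => univ.filter (A a)) := by
    intro ω hω
    obtain ⟨a, ha, h⟩ := (mem_filter.1 hω).2
    exact mem_biUnion.2 ⟨a, ha, mem_filter.2 ⟨mem_univ _, h⟩⟩
  exact_mod_cast (Finset.card_le_card this).trans Finset.card_biUnion_le

theorem exists_of_pr_lt {A : (ι → κ) → Prop} [Nonempty κ] (h : pr A < 1) : ∃ ω, ¬ A ω := by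
  classical
  by_contra hc
  push Not at hc
  have : univ.filter A = univ := Finset.filter_true_of_mem fun ω _ => hc ω
  rw [pr_eq] at h
  rw [this, Finset.card_univ] at h
  have hpos : (0 : ℝ) < (Fintype.card (ι → κ) : ℝ) := by exact_mod_cast Fintype.card_pos
  rw [div_self hpos.ne'] at h
  exact lt_irrefl _ h

theorem pr_not (A : (ι → κ) → Prop) [Nonempty κ] : pr (fun ω => ¬ A ω) = 1 - pr A := by
  classical
  simp only [pr_eq]
  have hpos : (0 : ℝ) < (Fintype.card (ι → κ) : ℝ) := by exact_mod_cast Fintype.card_pos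
  have h := Finset.card_filter_add_card_filter_not (s := (univ : Finset (ι → κ))) A
  rw [Finset.card_univ] at h
  rw [eq_sub_iff_add_eq, ← add_div, div_eq_one_iff_eq hpos.ne']
  have h' : ((univ.filter A).card : ℝ) + ((univ.filter (fun ω => ¬ A ω)).card : ℝ) =
      (Fintype.card (ι → κ) : ℝ) := by exact_mod_cast h
  linarith

theorem pr_pi [DecidableEq κ] (F : ι → Finset κ) :
    pr (fun ω => ∀ i, ω i ∈ F i) = ∏ i, ((F i).card : ℝ) / (Fintype.card κ : ℝ) := by
  classical
  simp only [pr_eq]
  have h : univ.filter (fun ω : ι → κ => ∀ i, ω i ∈ F i) = Fintype.piFinset F := by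
    ext ω
    simp [Fintype.mem_piFinset]
  rw [h, Fintype.card_piFinset, Fintype.card_pi, Finset.prod_div_distrib]
  push_cast
  rfl

theorem pr_present [DecidableEq κ] [Nonempty κ] (z : κ) (E : Finset ι) :
    pr (fun ω : ι → κ => ∀ e ∈ E, ω e = z) = ((Fintype.card κ : ℝ)⁻¹) ^ E.card := by
  classical
  have h : pr (fun ω : ι → κ => ∀ e ∈ E, ω e = z) =
      pr (fun ω : ι → κ => ∀ i, ω i ∈ (if i ∈ E then {z} else (univ : Finset κ))) := by
    congr 1
    funext ω
    refine propext ⟨fun h i => ?_, fun h e he => ?_⟩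
    · split_ifs with hi
      · simp [h i hi]
      · exact mem_univ _
    · have := h e
      rw [if_pos he] at this
      exact mem_singleton.1 this
  rw [h, pr_pi]
  have hκ : (Fintype.card κ : ℝ) ≠ 0 := by
    have : 0 < Fintype.card κ := Fintype.card_pos
    exact_mod_cast this.ne'
  have h2 : ∀ i : ι, (((if i ∈ E then {z} else (univ : Finset κ)).card : ℝ) /
      (Fintype.card κ : ℝ)) = if i ∈ E then ((Fintype.card κ : ℝ)⁻¹) else 1 := by
    intro i
    split_ifs
    · simp
    · rw [Finset.card_univ, div_self hκ]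
  rw [Finset.prod_congr rfl (fun i _ => h2 i), Finset.prod_ite_mem, univ_inter, prod_const]

theorem pr_indep [Nonempty κ] (C : Finset ι) (P Q : (ι → κ) → Prop)
    (hP : ∀ ω ω' : ι → κ, (∀ i ∈ C, ω i = ω' i) → P ω → P ω')
    (hQ : ∀ ω ω' : ι → κ, (∀ i ∉ C, ω i = ω' i) → Q ω → Q ω') :
    pr (fun ω => P ω ∧ Q ω) = pr P * pr Q := by
  classical
  let mix : (ι → κ) → (ι → κ) → (ι → κ) := fun a b i => if i ∈ C then a i else b i
  have h : (univ.filter P ×ˢ univ.filter Q).card =
      (univ.filter (fun ω => P ω ∧ Q ω) ×ˢ (univ : Finset (ι → κ))).card := by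
    refine Finset.card_nbij' (fun x => (mix x.1 x.2, mix x.2 x.1))
      (fun x => (mix x.1 x.2, mix x.2 x.1)) ?_ ?_ ?_ ?_
    · rintro ⟨a, b⟩ hx
      simp only [coe_product, Set.mem_prod, mem_coe, mem_filter, mem_univ, true_and] at hx ⊢
      refine ⟨⟨hP a _ (fun i hi => ?_) hx.1, hQ b _ (fun i hi => ?_) hx.2⟩, trivial⟩
      · simp [mix, hi]
      · simp [mix, hi]
    · rintro ⟨a, b⟩ hx
      simp only [coe_product, Set.mem_prod, mem_coe, mem_filter, mem_univ, true_and, and_true]
        at hx ⊢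
      refine ⟨hP a _ (fun i hi => ?_) hx.1, hQ a _ (fun i hi => ?_) hx.2⟩
      · simp [mix, hi]
      · simp [mix, hi]
    · rintro ⟨a, b⟩ _
      ext i <;> by_cases hi : i ∈ C <;> simp [mix, hi]
    · rintro ⟨a, b⟩ _
      ext i <;> by_cases hi : i ∈ C <;> simp [mix, hi]
  rw [card_product, card_product, card_univ] at h
  have hpos : (0 : ℝ) < (Fintype.card (ι → κ) : ℝ) := by exact_mod_cast Fintype.card_pos
  simp only [pr_eq]
  have h' : ((univ.filter P).card : ℝ) * ((univ.filter Q).card : ℝ) =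
      ((univ.filter (fun ω => P ω ∧ Q ω)).card : ℝ) * (Fintype.card (ι → κ) : ℝ) := by
    exact_mod_cast h
  field_simp
  linarith

end Pool.Agent.X152.PK
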