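import Pool.Agent.X152.PK.Emb
import Pool.Agent.X152.PK.Cand
set_option autoImplicit false

/-!
Sequences of copies of the complement of the path, each hanging on a new neighbour of `S`.
-/

namespace Pool.Agent.X152.PK

open Finset

variable {V : Type} [Fintype V] [DecidableEq V] {M : ℕ} [NeZero M] {m : ℕ}

/-- there is a sequence of `n` present copies, the last vertices of which are new and joined to
all of `S` -/
def SeqP (i0 il : Fin (2 * m)) (S : Finset V) (ω : Sym2 V → Fin M) : ℕ → Finset V → Prop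
  | 0, _ => True
  | n + 1, X => ∃ φ : Fin (2 * m) → V, (Function.Injective φ ∧ φ i0 ∈ S ∧ φ il ∉ X) ∧
      (∀ e ∈ W il φ S, ω e = 0) ∧ SeqP i0 il S ω n (X ∪ univ.image φ)

theorem pr_seq (hm : 3 ≤ m) (i0 il : Fin (2 * m)) (h0 : i0.val = 0) (hl : il.val = 2 * m - 1)
    (S : Finset V) (hS : S.card = m - 1) (Xm : ℕ) (hM : 1 ≤ M) :
    ∀ (n : ℕ) (X : Finset V) (E : Finset (Sym2 V)), S ⊆ X → (∀ e ∈ E, ∀ x ∈ e, x ∈ X) →
      X.card + 2 * m * n ≤ Xm →
      pr (fun ω : Sym2 V → Fin M => (∀ e ∈ E, ω e = 0) ∧ SeqP i0 il S ω n X) ≤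
        ((M : ℝ)⁻¹) ^ E.card *
          ((M : ℝ)⁻¹ * ((Xm : ℝ) + Fintype.card V * ((M : ℝ)⁻¹) ^ (m - 1)) ^ (2 * m)) ^ n := by
  classical
  have hne : Nonempty (Fin M) := ⟨0⟩
  set p : ℝ := (M : ℝ)⁻¹ with hp
  have hp0 : 0 ≤ p := by positivity
  have hp1 : p ≤ 1 := by
    rw [hp, inv_le_one_iff₀]
    right
    exact_mod_cast hM
  intro n
  induction n with
  | zero =>
    intro X E _ _ _
    rw [pow_zero, mul_one]
    have := pr_present (0 : Fin M) E
    rw [Fintype.card_fin] at this
    rw [← this]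
    exact pr_mono fun ω h => h.1
  | succ n ih =>
    intro X E hSX hE hX
    set f : ℝ := p * ((Xm : ℝ) + Fintype.card V * p ^ (m - 1)) ^ (2 * m) with hf
    have hf0 : 0 ≤ f := by positivity
    set Φ : Finset (Fin (2 * m) → V) :=
      univ.filter (fun φ => Function.Injective φ ∧ φ i0 ∈ S ∧ φ il ∉ X) with hΦ
    have hstep : pr (fun ω : Sym2 V → Fin M => (∀ e ∈ E, ω e = 0) ∧ SeqP i0 il S ω (n + 1) X) ≤
        ∑ φ ∈ Φ, pr (fun ω : Sym2 V → Fin M => (∀ e ∈ E ∪ W il φ S, ω e = 0) ∧
          SeqP i0 il S ω n (X ∪ univ.image φ)) := by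
      refine le_trans (pr_mono fun ω h => ?_) (pr_exists Φ _)
      obtain ⟨hE', φ, hφ, hW, hs⟩ := h
      refine ⟨φ, mem_filter.2 ⟨mem_univ _, hφ⟩, fun e he => ?_, hs⟩
      rcases mem_union.1 he with h | h
      · exact hE' e h
      · exact hW e h
    refine hstep.trans ?_
    have hterm : ∀ φ ∈ Φ, pr (fun ω : Sym2 V → Fin M => (∀ e ∈ E ∪ W il φ S, ω e = 0) ∧
          SeqP i0 il S ω n (X ∪ univ.image φ)) ≤ (p ^ E.card * f ^ n) * p ^ (W il φ S \ E).card := by
      intro φ hφ
      obtain ⟨hinj, h0S, hlX⟩ := (mem_filter.1 hφ).2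
      have h1 := ih (X ∪ univ.image φ) (E ∪ W il φ S) (hSX.trans subset_union_left) ?_ ?_
      · refine h1.trans (le_of_eq ?_)
        have hc : (E ∪ W il φ S).card = E.card + (W il φ S \ E).card := by
          rw [← Finset.union_sdiff_self_eq_union, Finset.card_union_of_disjoint disjoint_sdiff]
        rw [hc, pow_add]
        ring
      · intro e he x hx
        rcases mem_union.1 he with h | h
        · exact mem_union_left _ (hE e h x hx)
        · rcases mem_union.1 h with h | h
          · obtain ⟨g, -, rfl⟩ := mem_image.1 h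
            obtain ⟨i, -, rfl⟩ := Sym2.mem_map.1 hx
            exact mem_union_right _ (mem_image_of_mem _ (mem_univ _))
          · obtain ⟨y, hy, rfl⟩ := mem_image.1 h
            rcases Sym2.mem_iff.1 hx with rfl | rfl
            · exact mem_union_left _ (hSX hy)
            · exact mem_union_right _ (mem_image_of_mem _ (mem_univ _))
      · have h2 := Finset.card_union_le X (univ.image φ)
        have h3 : (univ.image φ).card ≤ 2 * m := by
          refine Finset.card_image_le.trans ?_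
          simp
        have h4 : 2 * m * (n + 1) = 2 * m * n + 2 * m := by ring
        omega
    refine (Finset.sum_le_sum hterm).trans ?_
    rw [← Finset.mul_sum]
    have hw := weight hm i0 il h0 hl S X hS hSX E hE p hp0 hp1 Φ
      (fun φ hφ => (mem_filter.1 hφ).2)
    have hw' : ∑ φ ∈ Φ, p ^ (W il φ S \ E).card ≤ f := by
      refine hw.trans ?_
      refine mul_le_mul_of_nonneg_left (pow_le_pow_left₀ (by positivity) ?_ _) hp0
      have : (X.card : ℝ) ≤ Xm := by
        have : X.card ≤ Xm := by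
          have := Nat.zero_le (2 * m * (n + 1))
          omega
        exact_mod_cast this
      linarith
    calc (p ^ E.card * f ^ n) * ∑ φ ∈ Φ, p ^ (W il φ S \ E).card
        ≤ (p ^ E.card * f ^ n) * f := mul_le_mul_of_nonneg_left hw' (by positivity)
      _ = p ^ E.card * f ^ (n + 1) := by rw [pow_succ]; ring

/-- `w` is a bad neighbour of `S`: it is the last vertex of a present copy starting in `S` -/
def Bad (i0 il : Fin (2 * m)) (S : Finset V) (ω : Sym2 V → Fin M) (w : V) : Prop :=
  ∃ φ : Fin (2 * m) → V, Function.Injective φ ∧ φ i0 ∈ S ∧ φ il = w ∧ ∀ e ∈ W il φ S, ω e = 0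

theorem seq_of_bad (hm : 1 ≤ m) (i0 il : Fin (2 * m)) (S : Finset V) (ω : Sym2 V → Fin M)
    (B : Finset V) (hB : ∀ w ∈ B, Bad i0 il S ω w) :
    ∀ (n : ℕ) (X : Finset V), 2 * m * n ≤ (B \ X).card → SeqP i0 il S ω n X := by
  intro n
  induction n with
  | zero => intro X _; trivial
  | succ n ih =>
    intro X hX
    have h4 : 2 * m * (n + 1) = 2 * m * n + 2 * m := by ring
    have hpos : 0 < (B \ X).card := by omega
    obtain ⟨w, hw⟩ := Finset.card_pos.1 hpos
    obtain ⟨hwB, hwX⟩ := mem_sdiff.1 hw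
    obtain ⟨φ, h1, h2, h3, h5⟩ := hB w hwB
    refine ⟨φ, ⟨h1, h2, by rw [h3]; exact hwX⟩, h5, ih _ ?_⟩
    have h6 : B \ X ⊆ (B \ (X ∪ univ.image φ)) ∪ univ.image φ := by
      intro y hy
      by_cases hyφ : y ∈ univ.image φ
      · exact mem_union_right _ hyφ
      · refine mem_union_left _ (mem_sdiff.2 ⟨(mem_sdiff.1 hy).1, fun h => ?_⟩)
        rcases mem_union.1 h with h | h
        · exact (mem_sdiff.1 hy).2 h
        · exact hyφ h
    have h7 := (Finset.card_le_card h6).trans (Finset.card_union_le _ _)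
    have h8 : (univ.image φ).card ≤ 2 * m := by
      refine Finset.card_image_le.trans ?_
      simp
    omega

end Pool.Agent.X152.PK
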